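import Pool.Agent.Helper98.BH.Defs2

/-!
# MP_59646b_lc, module BH-2a: combinatorics of strategies on finite sequences
-/

namespace Pool.Agent.BH

theorem str_comb_singleton (m : ℕ → ℕ) (G : ℕ → Bai) (n : ℕ) :
    str (comb m G) [n] = m n := by
  simp [str, comb]

theorem str_comb_cons (m : ℕ → ℕ) (G : ℕ → Bai) (n : ℕ) (a : List ℕ) (ha : a ≠ []) :
    str (comb m G) (n :: a) = str (G n) a := by
  simp [str, comb, ha]

theorem comb_spec (T T' : Set (List ℕ)) (pT : ∀ t t', t ∈ T → t' <+: t → t' ∈ T) (u v : List ℕ)
    (hv : v ∈ T') (m : ℕ → ℕ) (G : ℕ → Bai)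
    (h : ∀ n, u ++ [n] ∈ T → v ++ [m n] ∈ T' ∧ SII T T' (u ++ [n]) (v ++ [m n]) (G n)) :
    SII T T' u v (comb m G) := by
  intro a ha
  cases a with
  | nil => simpa using hv
  | cons n a =>
    have e : u ++ n :: a = (u ++ [n]) ++ a := by simp
    rw [e] at ha
    have hn : u ++ [n] ∈ T := pT _ _ ha (List.prefix_append _ _)
    have h2 := (h n hn).2 a ha
    have hi : a.inits = [] :: a.inits.tail := by cases a <;> simp
    have key : (n :: a).inits.tail.map (str (comb m G)) =
        m n :: a.inits.tail.map (str (G n)) := by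
      rw [List.inits_cons, List.tail_cons, List.map_map, hi]
      simp only [List.map_cons, Function.comp_apply, List.tail_cons]
      rw [str_comb_singleton]
      congr 1
      refine List.map_congr_left ?_
      intro b hb
      have hb0 : b ≠ [] := by
        rintro rfl
        cases a with
        | nil => simp at hb
        | cons x a => simp at hb
      exact str_comb_cons m G n b hb0
    rw [key]
    have e2 : v ++ m n :: a.inits.tail.map (str (G n)) =
        (v ++ [m n]) ++ a.inits.tail.map (str (G n)) := by simp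
    rw [e2]
    exact h2

theorem str_psi (N : List ℕ → List ℕ → ℕ) (b : List ℕ) :
    str (psi N) b = N (movesI N b) b := by
  simp [str, psi]

theorem foldl_snd (N : List ℕ → List ℕ → ℕ) (b : List ℕ) : ∀ p : List ℕ × List ℕ,
    (b.foldl (fun p m => (p.1 ++ [N p.1 p.2], p.2 ++ [m])) p).2 = p.2 ++ b := by
  induction b with
  | nil => intro p; simp
  | cons x b ih => intro p; rw [List.foldl_cons, ih]; simp

theorem movesI_append (N : List ℕ → List ℕ → ℕ) (b : List ℕ) (m : ℕ) :
    movesI N (b ++ [m]) = movesI N b ++ [N (movesI N b) b] := by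
  unfold movesI
  rw [List.foldl_append]
  simp only [List.foldl_cons, List.foldl_nil]
  rw [foldl_snd]
  simp

theorem inits_map_psi (N : List ℕ → List ℕ → ℕ) (b : List ℕ) :
    b.inits.map (str (psi N)) = movesI N b ++ [N (movesI N b) b] := by
  induction b using List.reverseRecOn with
  | nil => simp [str_psi, movesI]
  | append_singleton b m ih =>
    rw [List.inits_append, List.map_append, ih, movesI_append]
    simp [str_psi, movesI_append]

theorem psi_spec (T T' : Set (List ℕ)) (pT' : ∀ t t', t ∈ T' → t' <+: t → t' ∈ T')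
    (eT : [] ∈ T) (N : List ℕ → List ℕ → ℕ)
    (Γ : List ℕ → List ℕ → Prop) (h0 : ¬ Γ [] [])
    (h : ∀ u v, v ∈ T' → ¬ Γ u v → u ++ [N u v] ∈ T ∧
      ∀ m, v ++ [m] ∈ T' → ¬ Γ (u ++ [N u v]) (v ++ [m])) :
    StratI T T' (psi N) := by
  have key : ∀ b : List ℕ, b ∈ T' → ¬ Γ (movesI N b) b := by
    intro b
    induction b using List.reverseRecOn with
    | nil => intro _; simpa [movesI] using h0
    | append_singleton b m ih =>
      intro hb
      have hb' : b ∈ T' := pT' _ _ hb (List.prefix_append _ _)
      rw [movesI_append]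
      exact (h _ _ hb' (ih hb')).2 m hb
  intro b hb
  rw [inits_map_psi]
  exact (h _ _ hb (key b hb)).1

end Pool.Agent.BH
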